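import Pool.Agent.Lib.MP_0e3b4a_gt.Iface

/-! # BAD: a form of finite rank vanishes locally outside a finite set of times -/

set_option autoImplicit false

namespace Pool.Agent.CutLoci.H65

open MeasureTheory Set Filter Topology

variable {g : Type} [NormedAddCommGroup g] [NormedSpace ℝ g] [FiniteDimensional ℝ g] {r : ℕ}

/-- The first variation of a control supported in `(a, b)` vanishes up to `a`. -/
theorem W_left (C : Carnot g r) (u : Ctl r) (k : Ctl r) (a b t : ℝ) (hk : SuppIn k a b)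
    (h0 : 0 ≤ t) (ht : t ≤ a) (h1 : t ≤ 1) : C.W u k t = 0 := by
  unfold Carnot.W
  rw [intervalIntegral.integral_of_le h0]
  apply integral_eq_zero_of_ae
  have h2 : ∀ᵐ s ∂(volume.restrict (Ioc (0 : ℝ) t)), s ∉ Ioo a b → (k : ℝ → EE r) s = 0 :=
    ae_mono (Measure.restrict_mono (Ioc_subset_Ioc_right h1) le_rfl) hk
  filter_upwards [h2, ae_restrict_mem measurableSet_Ioc] with s hs hs2
  rw [hs (fun h => absurd (lt_of_lt_of_le h.1 (hs2.2.trans ht)) (lt_irrefl _)), map_zero, map_zero]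
  rfl

/-- The first variation of a control in the kernel supported in `(a, b)` vanishes from `b` on. -/
theorem W_right (C : Carnot g r) (u : Ctl r) (k : Ctl r) (a b t : ℝ) (hk : SuppIn k a b)
    (hK : C.Ker u k) (h0 : 0 ≤ t) (ht : b ≤ t) (h1 : t ≤ 1) : C.W u k t = 0 := by
  have h3 : C.W u k 1 = 0 := hK
  rw [← h3]
  unfold Carnot.W
  rw [intervalIntegral.integral_of_le h0, intervalIntegral.integral_of_le zero_le_one]
  symm
  apply setIntegral_eq_of_subset_of_ae_sdiff_eq_zero measurableSet_Ioc.nullMeasurableSet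
    (Ioc_subset_Ioc_right h1)
  have h2 := (ae_restrict_iff' measurableSet_Ioc).1 hk
  filter_upwards [h2] with s hs hs2
  have hs3 : t < s := by
    by_contra hcon
    push Not at hcon
    exact hs2.2 ⟨hs2.1.1, hcon⟩
  rw [hs hs2.1 (fun h => absurd (lt_of_lt_of_le h.2 (ht.trans hs3.le)) (lt_irrefl _)), map_zero,
    map_zero]

/-- The second variation of two controls with disjoint supports vanishes if the first one is in
the kernel. -/
theorem Q_disjoint (C : Carnot g r) (u : Ctl r) (k x : Ctl r) (a b a' b' : ℝ) (hk : SuppIn k a b)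
    (hx : SuppIn x a' b') (hK : C.Ker u k) (hd : b ≤ a' ∨ b' ≤ a) : C.Q u k x = 0 := by
  unfold Carnot.Q
  rw [intervalIntegral.integral_of_le zero_le_one]
  apply integral_eq_zero_of_ae
  filter_upwards [hx, ae_restrict_mem measurableSet_Ioc] with s hs hs2
  by_cases hsx : s ∈ Ioo a' b'
  · have hW : C.W u k s = 0 := by
      rcases hd with h | h
      · exact W_right C u k a b s hk hK hs2.1.le (h.trans hsx.1.le) hs2.2
      · exact W_left C u k a b s hk hs2.1.le (hsx.2.le.trans h) hs2.2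
    rw [hW, map_zero]
    rfl
  · rw [hs hsx, map_zero, map_zero, map_zero]
    rfl

theorem bad (g : Type) [NormedAddCommGroup g] [NormedSpace ℝ g] [FiniteDimensional ℝ g] (r : ℕ)
    (hB : BiliStatement g r) : BadStatement g r := by
  intro C u l N n hN hQ
  obtain ⟨⟨L, hL⟩, ⟨B, hBQ⟩, -, -⟩ := hB C u
  by_contra hcon
  -- the set of bad times is infinite
  have hinf : {t : ℝ | t ∈ Ioo (0 : ℝ) 1 ∧ ¬ Good C u l t}.Infinite := by
    intro hfin
    apply hcon
    refine ⟨hfin.toFinset, ?_⟩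
    intro t ht hZ
    by_contra hg
    exact hZ (hfin.mem_toFinset.2 ⟨ht, hg⟩)
  obtain ⟨S, hS, hcard⟩ := hinf.exists_subset_card_eq (n + 1)
  have e : Fin (n + 1) ≃ S := (S.equivFinOfCardEq hcard).symm
  set τ : Fin (n + 1) → ℝ := fun i => (e i : ℝ) with hτ
  have hτinj : Function.Injective τ := fun i j h => e.injective (Subtype.ext h)
  have hτmem : ∀ i, τ i ∈ Ioo (0 : ℝ) 1 ∧ ¬ Good C u l (τ i) := fun i => hS (e i).2
  -- a common radius
  obtain ⟨ε, hε, hε1, hε2⟩ : ∃ ε : ℝ, 0 < ε ∧ (∀ i, ε < τ i ∧ τ i + ε < 1) ∧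
      ∀ i j, τ i < τ j → τ i + ε ≤ τ j - ε := by
    have h1 : ∀ i, ∃ ε : ℝ, 0 < ε ∧ ε < τ i ∧ τ i + ε < 1 := by
      intro i
      have h2 := (hτmem i).1
      refine ⟨min (τ i) (1 - τ i) / 2, ?_, ?_, ?_⟩
      · have : 0 < min (τ i) (1 - τ i) := lt_min h2.1 (by linarith [h2.2])
        linarith
      · have : min (τ i) (1 - τ i) ≤ τ i := min_le_left _ _
        linarith [h2.1]
      · have : min (τ i) (1 - τ i) ≤ 1 - τ i := min_le_right _ _
        linarith [h2.2]
    choose ε1 hp1 hp2 hp3 using h1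
    have h2 : ∀ p : Fin (n + 1) × Fin (n + 1), ∃ ε : ℝ, 0 < ε ∧ (τ p.1 < τ p.2 →
        τ p.1 + ε ≤ τ p.2 - ε) := by
      intro p
      by_cases h : τ p.1 < τ p.2
      · exact ⟨(τ p.2 - τ p.1) / 2, by linarith, fun _ => by linarith⟩
      · exact ⟨1, one_pos, fun h' => absurd h' h⟩
    choose ε2 hq1 hq2 using h2
    have hne : (Finset.univ : Finset (Fin (n + 1))).Nonempty := Finset.univ_nonempty
    have hne2 : (Finset.univ : Finset (Fin (n + 1) × Fin (n + 1))).Nonempty :=
      Finset.univ_nonempty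
    refine ⟨min (Finset.univ.inf' hne ε1) (Finset.univ.inf' hne2 ε2), ?_, ?_, ?_⟩
    · apply lt_min
      · rw [Finset.lt_inf'_iff]
        exact fun i _ => hp1 i
      · rw [Finset.lt_inf'_iff]
        exact fun i _ => hq1 i
    · intro i
      have h3 : min (Finset.univ.inf' hne ε1) (Finset.univ.inf' hne2 ε2) ≤ ε1 i :=
        (min_le_left _ _).trans (Finset.inf'_le _ (Finset.mem_univ i))
      exact ⟨lt_of_le_of_lt h3 (hp2 i), by linarith [hp3 i]⟩
    · intro i j hij
      have h3 : min (Finset.univ.inf' hne ε1) (Finset.univ.inf' hne2 ε2) ≤ ε2 (i, j) :=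
        (min_le_right _ _).trans (Finset.inf'_le _ (Finset.mem_univ (i, j)))
      have h4 := hq2 (i, j) hij
      dsimp only at h4
      linarith
  -- pairs of controls
  have hpair : ∀ i, ∃ k x : Ctl r, C.Ker u k ∧ C.Ker u x ∧ SuppIn k (τ i - ε) (τ i + ε) ∧
      SuppIn x (τ i - ε) (τ i + ε) ∧ l (C.Q u k x) ≠ 0 := by
    intro i
    by_contra hno
    push Not at hno
    apply (hτmem i).2
    exact ⟨ε, hε, (hε1 i).1, (hε1 i).2, fun x y hx hy hsx hsy => hno x y hx hy hsx hsy⟩
  choose k x hk hx hsk hsx hne using hpair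
  obtain ⟨c, hc, hmem⟩ := hN x hx
  obtain ⟨j, hj⟩ := Function.ne_iff.1 hc
  have hKsum : C.Ker u (∑ i, c i • x i : Ctl r) := by
    have h1 : C.W u (∑ i, c i • x i : Ctl r) 1 = L 1 (∑ i, c i • x i) :=
      (hL 1 ⟨zero_le_one, le_rfl⟩ _).symm
    change C.W u (∑ i, c i • x i : Ctl r) 1 = 0
    rw [h1, map_sum]
    apply Finset.sum_eq_zero
    intro i _
    rw [map_smul, hL 1 ⟨zero_le_one, le_rfl⟩]
    have h2 : C.W u (x i) 1 = 0 := hx i
    rw [h2, smul_zero]
  have h3 := hQ _ hmem (k j) hKsum (hk j)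
  rw [← hBQ, map_sum, map_sum, Finset.sum_eq_single j] at h3
  · rw [map_smul, map_smul, hBQ, smul_eq_mul] at h3
    rcases mul_eq_zero.1 h3 with h | h
    · exact hj h
    · exact hne j h
  · intro i _ hij
    rw [map_smul, map_smul, hBQ]
    have h4 : C.Q u (k j) (x i) = 0 := by
      apply Q_disjoint C u (k j) (x i) _ _ _ _ (hsk j) (hsx i) (hk j)
      rcases lt_trichotomy (τ i) (τ j) with h | h | h
      · exact Or.inr (hε2 i j h)
      · exact absurd (hτinj h) hij
      · exact Or.inl (hε2 j i h)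
    rw [h4, map_zero, smul_zero]
  · intro h
    exact absurd (Finset.mem_univ j) h

end Pool.Agent.CutLoci.H65
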