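import Pool.Agent.Lib.MP_0e3b4a_gt.Iface2

/-! # CUBZ: the planar problem when the cubic form vanishes -/

set_option autoImplicit false

namespace Pool.Agent.CutLoci.H65

open MeasureTheory Set Filter Topology

/-- The first basis vector. -/
noncomputable def e0 : EE 2 := EuclideanSpace.single 0 1

/-- The second basis vector. -/
noncomputable def e1 : EE 2 := EuclideanSpace.single 1 1

theorem decomp (v : EE 2) : v = v 0 • e0 + v 1 • e1 := by
  ext i
  fin_cases i <;> simp [e0, e1]

theorem det2_eq (S : EE 2 →ₗ[ℝ] EE 2 →ₗ[ℝ] ℝ) :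
    det2 S = S e0 e0 * S e1 e1 - S e0 e1 * S e1 e0 := rfl

theorem bil_ext (S : EE 2 →ₗ[ℝ] EE 2 →ₗ[ℝ] ℝ) (h00 : S e0 e0 = 0) (h01 : S e0 e1 = 0)
    (h10 : S e1 e0 = 0) (h11 : S e1 e1 = 0) : S = 0 := by
  ext v w
  rw [decomp v, decomp w]
  simp [h00, h01, h10, h11]

/-- The coordinate form `m x₁ - n x₂`. -/
noncomputable def tauForm (m n : ℝ) : EE 2 →ₗ[ℝ] ℝ where
  toFun v := m * v 0 - n * v 1
  map_add' v w := by simp only [PiLp.add_apply]; ring
  map_smul' c v := by simp only [PiLp.smul_apply, smul_eq_mul, RingHom.id_apply]; ring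

theorem tauForm_apply (m n : ℝ) (v : EE 2) : tauForm m n v = m * v 0 - n * v 1 := rfl

/-- CUBZ -/
theorem cubz : CubzStatement := by
  intro x S0 T hx hx0 hS0 hT hT0 hcub hdet
  obtain ⟨m, hm⟩ : ∃ m, m = T e0 e0 e1 := ⟨_, rfl⟩
  obtain ⟨n, hn⟩ : ∃ n, n = T e1 e0 e1 := ⟨_, rfl⟩
  obtain ⟨α, hα⟩ : ∃ α, α = S0 e0 e0 := ⟨_, rfl⟩
  obtain ⟨β, hβ⟩ : ∃ β, β = S0 e0 e1 := ⟨_, rfl⟩
  obtain ⟨γ, hγ⟩ : ∃ γ, γ = S0 e1 e1 := ⟨_, rfl⟩
  have hβ' : S0 e1 e0 = β := by rw [hβ]; exact hS0 _ _
  have hm' : T e0 e1 e0 = m := by rw [hm]; exact hT _ _ _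
  have hn' : T e1 e1 e0 = n := by rw [hn]; exact hT _ _ _
  have h000 : T e0 e0 e0 = 0 := hcub e0
  have h111 : T e1 e1 e1 = 0 := hcub e1
  have hp := hcub (e0 + e1)
  have hq := hcub (e0 - e1)
  simp only [map_add, map_sub, LinearMap.add_apply, LinearMap.sub_apply, h000, h111, ← hm, ← hn,
    hm', hn'] at hp hq
  have h100 : T e1 e0 e0 = -2 * m := by linarith
  have h011 : T e0 e1 e1 = -2 * n := by linarith
  have hmn : m ≠ 0 ∨ n ≠ 0 := by
    by_contra hc
    push Not at hc
    obtain ⟨hm0, hn0⟩ := hc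
    apply hT0
    have a0 : T e0 = 0 := bil_ext _ h000 (by rw [← hm, hm0]) (by rw [hm', hm0])
      (by rw [h011, hn0]; simp)
    have a1 : T e1 = 0 := bil_ext _ (by rw [h100, hm0]; simp) (by rw [← hn, hn0])
      (by rw [hn', hn0]) h111
    ext v a b
    rw [decomp v]
    simp [a0, a1]
  have hdet' : ∀ t ∈ Icc (0 : ℝ) 1,
      (α * γ - β ^ 2) - 2 * ((n * α + m * β) * x t 0 + (m * γ + n * β) * x t 1) -
        (m * x t 0 - n * x t 1) ^ 2 = 0 := by
    intro t ht
    have h := hdet t ht
    rw [det2_eq, decomp (x t)] at h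
    simp only [map_add, map_smul, LinearMap.add_apply, LinearMap.smul_apply, smul_eq_mul, h000,
      h111, ← hm, ← hn, hm', hn', h100, h011, ← hα, ← hβ, ← hγ, hβ'] at h
    linear_combination h
  have hag : α * γ - β ^ 2 = 0 := by
    have h := hdet' 0 ⟨le_refl _, zero_le_one⟩
    rw [hx0] at h
    simpa using h
  obtain ⟨s1, hs1⟩ : ∃ s1, s1 = n * α + m * β := ⟨_, rfl⟩
  obtain ⟨s2, hs2⟩ : ∃ s2, s2 = m * γ + n * β := ⟨_, rfl⟩
  have hpar : ∀ t ∈ Icc (0 : ℝ) 1,
      (m * x t 0 - n * x t 1) ^ 2 = -2 * (s1 * x t 0 + s2 * x t 1) := by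
    intro t ht
    have h := hdet' t ht
    rw [hag] at h
    rw [hs1, hs2]
    linarith
  by_cases hδ : m * s2 + n * s1 = 0
  · left
    refine ⟨tauForm m n, ?_, ?_⟩
    · intro h0
      have a := tauForm_apply m n e0
      have b := tauForm_apply m n e1
      rw [h0] at a b
      simp [e0, e1] at a b
      rcases hmn with h | h
      · exact h a.symm
      · exact h b
    · have hN : 0 < m ^ 2 + n ^ 2 := by
        rcases hmn with h | h
        · have := pow_pos (abs_pos.2 h) 2
          rw [sq_abs] at this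
          nlinarith [sq_nonneg n]
        · have := pow_pos (abs_pos.2 h) 2
          rw [sq_abs] at this
          nlinarith [sq_nonneg m]
      obtain ⟨κ, hκ⟩ : ∃ κ, κ = (m * s1 - n * s2) / (m ^ 2 + n ^ 2) := ⟨_, rfl⟩
      have hκ1 : s1 = κ * m := by
        rw [hκ]
        field_simp
        linear_combination n * hδ
      have hκ2 : s2 = -κ * n := by
        rw [hκ]
        field_simp
        linear_combination m * hδ
      have hcont : ContinuousOn (fun t => tauForm m n (x t)) (Icc 0 1) :=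
        (LinearMap.continuous_of_finiteDimensional (tauForm m n)).comp_continuousOn hx
      have hroot : ∀ t ∈ Icc (0 : ℝ) 1,
          tauForm m n (x t) = 0 ∨ tauForm m n (x t) = -2 * κ := by
        intro t ht
        have h := hpar t ht
        rw [hκ1, hκ2] at h
        rw [tauForm_apply]
        have h' : (m * x t 0 - n * x t 1) * ((m * x t 0 - n * x t 1) + 2 * κ) = 0 := by
          linear_combination h
        rcases mul_eq_zero.1 h' with h'' | h''
        · exact Or.inl h''
        · right; linarith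
      intro t ht
      rcases hroot t ht with h | h
      · exact h
      · by_cases hk0 : κ = 0
        · rw [h, hk0]; simp
        · exfalso
          have hsub : Icc (0 : ℝ) t ⊆ Icc 0 1 := Icc_subset_Icc le_rfl ht.2
          have h00 : tauForm m n (x 0) = 0 := by rw [hx0]; simp
          have hiv : -κ ∈ (fun t => tauForm m n (x t)) '' Icc 0 t := by
            have hu := intermediate_value_uIcc (a := 0) (b := t)
              (f := fun t => tauForm m n (x t)) (by rw [uIcc_of_le ht.1]; exact hcont.mono hsub)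
            rw [uIcc_of_le ht.1] at hu
            apply hu
            simp only [h00, h]
            rw [mem_uIcc]
            rcases lt_or_gt_of_ne hk0 with hk | hk
            · left; constructor <;> linarith
            · right; constructor <;> linarith
          obtain ⟨r, hr, hr'⟩ := hiv
          simp only at hr'
          rcases hroot r (hsub hr) with h2 | h2
          · rw [h2] at hr'
            exact hk0 (by linarith)
          · rw [h2] at hr'
            exact hk0 (by linarith)
  · right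
    obtain ⟨d, hd⟩ : ∃ d, d = m * s2 + n * s1 := ⟨_, rfl⟩
    rw [← hd] at hδ
    refine ⟨tauForm m n, (s2 / d) • e0 - (s1 / d) • e1,
      -(n / (2 * d)) • e0 - (m / (2 * d)) • e1, ?_⟩
    intro t ht
    have h := hpar t ht
    have hx' := tauForm_apply m n (x t)
    obtain ⟨τ, hτ⟩ : ∃ τ, τ = tauForm m n (x t) := ⟨_, rfl⟩
    rw [← hτ] at hx' ⊢
    rw [← hx'] at h
    have h1 : x t 0 * d = τ * s2 - τ ^ 2 * n / 2 := by
      rw [hd]
      linear_combination (-s2) * hx' + n / 2 * h
    have h2 : x t 1 * d = -τ * s1 - τ ^ 2 * m / 2 := by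
      rw [hd]
      linear_combination s1 * hx' + m / 2 * h
    have h1' : x t 0 = τ * (s2 / d) - τ ^ 2 * (n / (2 * d)) := by
      rw [eq_div_of_mul_eq hδ h1]
      field_simp
    have h2' : x t 1 = -τ * (s1 / d) - τ ^ 2 * (m / (2 * d)) := by
      rw [eq_div_of_mul_eq hδ h2]
      field_simp
    ext i
    fin_cases i
    · simp [e0, e1]
      rw [h1']
      ring
    · simp [e0, e1]
      rw [h2']
      ring

end Pool.Agent.CutLoci.H65
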