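import Pool.Agent.Lib.MP_0e3b4a_gt.H65.Cubz

/-! # DETZ: the determinant of the planar problem -/

set_option autoImplicit false

namespace Pool.Agent.CutLoci.H65

open MeasureTheory Set Filter Topology

/-- A derivative at an accumulation point of the zero set vanishes. -/
theorem deriv_zero_of_acc {f : ℝ → ℝ} {f' t : ℝ} (h : HasDerivAt f f' t) (h0 : f t = 0)
    {s : Set ℝ} (hs : ∀ y ∈ s, f y = 0) (hacc : 𝓝[s ∩ Ioi t] t ≠ ⊥) : f' = 0 := by
  have h1 : HasDerivWithinAt f f' (s ∩ Ioi t) t := h.hasDerivWithinAt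
  rw [hasDerivWithinAt_iff_tendsto_slope' (by simp)] at h1
  have h2 : Tendsto (slope f t) (𝓝[s ∩ Ioi t] t) (𝓝 0) := by
    refine Tendsto.congr' ?_ tendsto_const_nhds
    filter_upwards [self_mem_nhdsWithin] with y hy
    rw [slope_def_field, h0, hs y hy.1]
    simp
  have : NeBot (𝓝[s ∩ Ioi t] t) := ⟨hacc⟩
  exact tendsto_nhds_unique h1 h2

/-- The linear form `y ↦ T y a b`. -/
noncomputable def entry (T : EE 2 →ₗ[ℝ] EE 2 →ₗ[ℝ] EE 2 →ₗ[ℝ] ℝ) (a b : EE 2) :
    EE 2 →L[ℝ] ℝ :=
  LinearMap.toContinuousLinearMap ((T.flip a).flip b)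

theorem entry_apply (T : EE 2 →ₗ[ℝ] EE 2 →ₗ[ℝ] EE 2 →ₗ[ℝ] ℝ) (a b y : EE 2) :
    entry T a b y = T y a b := rfl

/-- DETZ -/
theorem detz : DetzStatement := by
  intro u S0 T hu hne hS0 hT hae
  have hII : IntervalIntegrable u volume 0 1 := by
    rw [intervalIntegrable_iff, uIoc_of_le zero_le_one]
    exact hu
  have hcont : ContinuousOn (fun t => ∫ s in (0 : ℝ)..t, u s) (Icc 0 1) := by
    have := intervalIntegral.continuousOn_primitive_interval' (a := 0) hII
      (by simp)
    rwa [uIcc_of_le zero_le_one] at this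
  obtain ⟨x, hx⟩ : ∃ x : ℝ → EE 2, x = fun t => ∫ s in (0 : ℝ)..t, u s := ⟨_, rfl⟩
  have hxt : ∀ t, ∫ s in (0 : ℝ)..t, u s = x t := by intro t; rw [hx]
  rw [← hx] at hcont
  simp only [hxt] at hae ⊢
  have hder : ∀ᵐ t ∂(volume.restrict (Ioc (0 : ℝ) 1)), HasDerivAt x (u t) t := by
    rw [ae_restrict_iff' measurableSet_Ioc]
    filter_upwards [hII.ae_hasDerivAt_integral] with t ht ht'
    rw [hx]
    rw [uIcc_of_le zero_le_one] at ht
    exact ht ⟨ht'.1.le, ht'.2⟩ 0 ⟨le_rfl, zero_le_one⟩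
  have hent : ∀ a b, ContinuousOn (fun t => S0 a b + entry T a b (x t)) (Icc 0 1) := fun a b =>
    continuousOn_const.add ((entry T a b).continuous.comp_continuousOn hcont)
  have hentd : ∀ a b t, HasDerivAt x (u t) t →
      HasDerivAt (fun t => S0 a b + entry T a b (x t)) (entry T a b (u t)) t := fun a b t h =>
    ((entry T a b).hasFDerivAt.comp_hasDerivAt t h).const_add _
  -- the determinant function
  obtain ⟨f, hf⟩ : ∃ f : ℝ → ℝ, f = fun t => (S0 e0 e0 + entry T e0 e0 (x t)) *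
      (S0 e1 e1 + entry T e1 e1 (x t)) - (S0 e0 e1 + entry T e0 e1 (x t)) *
      (S0 e1 e0 + entry T e1 e0 (x t)) := ⟨_, rfl⟩
  have hfd : ∀ t, det2 (S0 + T (x t)) = f t := by
    intro t
    rw [det2_eq, hf]
    rfl
  have hfc : ContinuousOn f (Icc 0 1) := by
    rw [hf]
    exact ((hent _ _).mul (hent _ _)).sub ((hent _ _).mul (hent _ _))
  have hsym : ∀ t, S0 e1 e0 + entry T e1 e0 (x t) = S0 e0 e1 + entry T e0 e1 (x t) := by
    intro t
    rw [entry_apply, entry_apply, hS0 e1 e0, hT (x t) e1 e0]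
  -- kernel equations in coordinates
  have hker : ∀ t, (∀ b, S0 (u t) b + T (x t) (u t) b = 0) →
      (u t 0 * (S0 e0 e0 + entry T e0 e0 (x t)) + u t 1 * (S0 e0 e1 + entry T e0 e1 (x t)) = 0) ∧
      (u t 0 * (S0 e0 e1 + entry T e0 e1 (x t)) + u t 1 * (S0 e1 e1 + entry T e1 e1 (x t)) = 0) := by
    intro t ht
    have h0 := ht e0
    have h1 := ht e1
    rw [decomp (u t)] at h0 h1
    simp only [map_add, map_smul, LinearMap.add_apply, LinearMap.smul_apply, smul_eq_mul] at h0 h1
    have hs := hsym t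
    rw [entry_apply, entry_apply] at hs
    simp only [entry_apply]
    constructor
    · linear_combination h0 - u t 1 * hs
    · linear_combination h1
  have hnz : ∀ t, u t ≠ 0 → u t 0 ≠ 0 ∨ u t 1 ≠ 0 := by
    intro t ht
    by_contra hc
    push Not at hc
    apply ht
    rw [decomp (u t), hc.1, hc.2]
    simp
  have hfz : ∀ᵐ t ∂(volume.restrict (Ioc (0 : ℝ) 1)), f t = 0 := by
    filter_upwards [hae, hne] with t h1 h2
    obtain ⟨k0, k1⟩ := hker t h1
    have hs := hsym t
    rw [hf]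
    simp only
    rw [hs]
    rcases hnz t h2 with h | h
    · apply mul_left_cancel₀ h
      linear_combination (S0 e1 e1 + entry T e1 e1 (x t)) * k0 -
        (S0 e0 e1 + entry T e0 e1 (x t)) * k1
    · apply mul_left_cancel₀ h
      linear_combination (S0 e0 e0 + entry T e0 e0 (x t)) * k1 -
        (S0 e0 e1 + entry T e0 e1 (x t)) * k0
  have hfall : ∀ t ∈ Icc (0 : ℝ) 1, f t = 0 := by
    have := Measure.eqOn_Icc_of_ae_eq (μ := volume) (a := (0 : ℝ)) (b := 1) zero_ne_one
      (f := f) (g := fun _ => 0) ?_ hfc continuousOn_const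
    · intro t ht; exact this ht
    · rw [← Measure.restrict_congr_set (Ioc_ae_eq_Icc (μ := volume) (a := (0 : ℝ)) (b := 1))]
      exact hfz
  -- the third claim
  have hthird : ∀ᵐ t ∂(volume.restrict (Ioc (0 : ℝ) 1)), S0 + T (x t) = 0 → T (u t) = 0 := by
    have hcount : {t | t ∈ {y | S0 + T (x y) = 0} ∧ 𝓝[{y | S0 + T (x y) = 0} ∩ Ioi t] t = ⊥}.Countable :=
      countable_setOfPred_isolated_right_within
    have hnull : ∀ᵐ t ∂(volume.restrict (Ioc (0 : ℝ) 1)),
        ¬ (t ∈ {y | S0 + T (x y) = 0} ∧ 𝓝[{y | S0 + T (x y) = 0} ∩ Ioi t] t = ⊥) := by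
      apply ae_restrict_of_ae
      have := hcount.measure_zero volume
      exact measure_eq_zero_iff_ae_notMem.1 this
    filter_upwards [hnull, hder] with t h1 h2 h3
    have hacc : 𝓝[{y | S0 + T (x y) = 0} ∩ Ioi t] t ≠ ⊥ := fun h => h1 ⟨h3, h⟩
    have key : ∀ a b, T (u t) a b = 0 := by
      intro a b
      have hz : ∀ y ∈ {y | S0 + T (x y) = 0}, (fun t => S0 a b + entry T a b (x t)) y = 0 := by
        intro y hy
        have : (S0 + T (x y)) a b = 0 := by rw [hy]; rfl
        exact this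
      exact deriv_zero_of_acc (hentd a b t h2) (hz t h3) hz hacc
    ext a b
    rw [key a b]
    rfl
  refine ⟨fun t ht => by rw [hfd]; exact hfall t ht, ?_, hthird⟩
  have hIoo : ∀ᵐ t ∂(volume.restrict (Ioc (0 : ℝ) 1)), t ∈ Ioo (0 : ℝ) 1 := by
    rw [← restrict_Ioo_eq_restrict_Ioc]
    exact ae_restrict_mem measurableSet_Ioo
  filter_upwards [hthird, hder, hae, hne, hIoo] with t h3 hd hk hu0 ht
  by_cases hS : S0 + T (x t) = 0
  · rw [h3 hS]
    rfl
  · -- the derivative of the determinant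
    have hd1 : HasDerivAt f (entry T e0 e0 (u t) * (S0 e1 e1 + entry T e1 e1 (x t)) +
        (S0 e0 e0 + entry T e0 e0 (x t)) * entry T e1 e1 (u t) -
        (entry T e0 e1 (u t) * (S0 e1 e0 + entry T e1 e0 (x t)) +
        (S0 e0 e1 + entry T e0 e1 (x t)) * entry T e1 e0 (u t))) t := by
      rw [hf]
      exact ((hentd e0 e0 t hd).mul (hentd e1 e1 t hd)).sub
        ((hentd e0 e1 t hd).mul (hentd e1 e0 t hd))
    have hd2 : HasDerivAt f 0 t := by
      have : f =ᶠ[𝓝 t] fun _ => 0 := by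
        filter_upwards [Icc_mem_nhds ht.1 ht.2] with y hy
        exact hfall y hy
      exact (hasDerivAt_const t (0 : ℝ)).congr_of_eventuallyEq this
    have heq := hd1.unique hd2
    have hs := hsym t
    have hs' : entry T e1 e0 (u t) = entry T e0 e1 (u t) := by
      rw [entry_apply, entry_apply, hT]
    rw [hs, hs'] at heq
    obtain ⟨k0, k1⟩ := hker t hk
    obtain ⟨A, hA⟩ : ∃ A, A = S0 e0 e0 + entry T e0 e0 (x t) := ⟨_, rfl⟩
    obtain ⟨B, hB⟩ : ∃ B, B = S0 e0 e1 + entry T e0 e1 (x t) := ⟨_, rfl⟩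
    obtain ⟨C, hC⟩ : ∃ C, C = S0 e1 e1 + entry T e1 e1 (x t) := ⟨_, rfl⟩
    rw [← hA, ← hB] at k0
    rw [← hB, ← hC] at k1
    rw [← hA, ← hB, ← hC] at heq
    have hABC : A = 0 → B = 0 → C = 0 → False := by
      intro a b c
      apply hS
      apply bil_ext
      · exact hA.symm.trans a
      · exact hB.symm.trans b
      · exact (hs.trans hB.symm).trans b
      · exact hC.symm.trans c
    have hgoal : T (u t) (u t) (u t) = u t 0 ^ 2 * entry T e0 e0 (u t) +
        2 * (u t 0 * u t 1) * entry T e0 e1 (u t) + u t 1 ^ 2 * entry T e1 e1 (u t) := by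
      have e : T (u t) (u t) (u t) = T (u t) (u t 0 • e0 + u t 1 • e1) (u t 0 • e0 + u t 1 • e1) := by
        rw [← decomp (u t)]
      rw [e]
      simp only [map_add, map_smul, LinearMap.add_apply, LinearMap.smul_apply, smul_eq_mul]
      simp only [entry_apply] at hs' ⊢
      rw [hs']
      ring
    rw [hgoal]
    rcases hnz t hu0 with h | h
    · -- first coordinate nonzero
      have hC0 : C ≠ 0 := by
        intro c
        rw [c, mul_zero, add_zero] at k1
        have b : B = 0 := (mul_eq_zero.1 k1).resolve_left h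
        rw [b, mul_zero, add_zero] at k0
        exact hABC ((mul_eq_zero.1 k0).resolve_left h) b c
      apply mul_left_cancel₀ hC0
      linear_combination (u t 0) ^ 2 * heq - entry T e1 e1 (u t) * (u t 0 * k0 - u t 1 * k1) +
        2 * u t 0 * entry T e0 e1 (u t) * k1
    · have hA0 : A ≠ 0 := by
        intro a
        rw [a, mul_zero, zero_add] at k0
        have b : B = 0 := (mul_eq_zero.1 k0).resolve_left h
        rw [b, mul_zero, zero_add] at k1
        exact hABC a b ((mul_eq_zero.1 k1).resolve_left h)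
      apply mul_left_cancel₀ hA0
      linear_combination (u t 1) ^ 2 * heq - entry T e0 e0 (u t) * (u t 1 * k1 - u t 0 * k0) +
        2 * u t 1 * entry T e0 e1 (u t) * k0

end Pool.Agent.CutLoci.H65
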