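import Pool.Agent.Lib.MP_0e3b4a_gt.Iface

/-! # NUNI: a normal control is determined by its covector -/

set_option autoImplicit false

namespace Pool.Agent.CutLoci.H65

open MeasureTheory Set Filter Topology

theorem ctl_integrable {r : ℕ} (u : Ctl r) : IntegrableOn (u : ℝ → EE r) (Ioc (0 : ℝ) 1) := by
  have h := (Lp.memLp u).integrable (by norm_num)
  exact h

variable {g : Type} [NormedAddCommGroup g] [NormedSpace ℝ g] [FiniteDimensional ℝ g] {r : ℕ}

theorem apply_integrable (A : ℝ → g →L[ℝ] g) (w : ℝ → g) (hA : ContinuousOn A (Icc (0 : ℝ) 1))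
    (hw : IntegrableOn w (Ioc (0 : ℝ) 1)) : IntegrableOn (fun s => A s (w s)) (Ioc (0 : ℝ) 1) := by
  obtain ⟨M, hM⟩ := isCompact_Icc.exists_bound_of_continuousOn hA
  refine Integrable.mono' (hw.norm.const_mul M) ?_ ?_
  · have h1 : AEStronglyMeasurable A (volume.restrict (Ioc (0 : ℝ) 1)) :=
      (hA.mono Ioc_subset_Icc_self).aestronglyMeasurable measurableSet_Ioc
    exact (ContinuousLinearMap.id ℝ (g →L[ℝ] g)).aestronglyMeasurable_comp₂ h1
      hw.aestronglyMeasurable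
  · filter_upwards [ae_restrict_mem measurableSet_Ioc] with s hs
    refine (ContinuousLinearMap.le_opNorm _ _).trans ?_
    exact mul_le_mul_of_nonneg_right (hM s (Ioc_subset_Icc_self hs)) (norm_nonneg _)

theorem nuni (g : Type) [NormedAddCommGroup g] [NormedSpace ℝ g] [FiniteDimensional ℝ g] (r : ℕ)
    (hS : StrucStatement g r) (hG : GronStatement) : NuniStatement g r := by
  intro C u v l hu hv
  have hui := ctl_integrable u
  have hvi := ctl_integrable v
  obtain ⟨-, hAu, hu3⟩ := hS C u hui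
  obtain ⟨-, hAv, hv3⟩ := hS C v hvi
  set φ : ℝ → ℝ := fun t => ‖C.Ad u t - C.Ad v t‖ with hφ
  have hφc : ContinuousOn φ (Icc 0 1) := (hAu.sub hAv).norm
  obtain ⟨M, hM⟩ := isCompact_Icc.exists_bound_of_continuousOn hAv
  have hM0 : 0 ≤ M := (norm_nonneg _).trans (hM 0 ⟨le_rfl, zero_le_one⟩)
  -- the difference of the controls
  have hdiff : ∀ᵐ t ∂(volume.restrict (Ioc (0 : ℝ) 1)), ‖(u : ℝ → EE r) t - v t‖ ≤
      ‖l‖ * (φ t * ‖C.X‖) := by
    filter_upwards [hu, hv] with t h1 h2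
    set a : EE r := (u : ℝ → EE r) t - v t with ha
    have h3 : inner ℝ a a = l ((C.Ad u t - C.Ad v t) (C.X a)) := by
      have h4 : inner ℝ a a = inner ℝ ((u : ℝ → EE r) t) a - inner ℝ ((v : ℝ → EE r) t) a := by
        rw [← inner_sub_left]
      rw [h4, h1 a, h2 a, sub_apply, map_sub l]
    have h5 : ‖a‖ * ‖a‖ ≤ ‖l‖ * (φ t * ‖C.X‖) * ‖a‖ := by
      rw [← real_inner_self_eq_norm_mul_norm, h3]
      calc l ((C.Ad u t - C.Ad v t) (C.X a)) ≤ ‖l ((C.Ad u t - C.Ad v t) (C.X a))‖ :=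
            Real.le_norm_self _
        _ ≤ ‖l‖ * ‖(C.Ad u t - C.Ad v t) (C.X a)‖ := ContinuousLinearMap.le_opNorm _ _
        _ ≤ ‖l‖ * (φ t * ‖C.X a‖) :=
            mul_le_mul_of_nonneg_left (ContinuousLinearMap.le_opNorm _ _) (norm_nonneg _)
        _ ≤ ‖l‖ * (φ t * (‖C.X‖ * ‖a‖)) :=
            mul_le_mul_of_nonneg_left (mul_le_mul_of_nonneg_left
              (ContinuousLinearMap.le_opNorm _ _) (norm_nonneg _)) (norm_nonneg _)
        _ = _ := by ring
    by_cases ha0 : ‖a‖ = 0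
    · rw [ha0]
      exact mul_nonneg (norm_nonneg _) (mul_nonneg (norm_nonneg _) (norm_nonneg _))
    · exact le_of_mul_le_mul_right h5 (lt_of_le_of_ne (norm_nonneg _) (Ne.symm ha0))
  set κ : ℝ → ℝ := fun s => ‖C.br‖ * ‖C.X‖ * ‖(u : ℝ → EE r) s‖ +
    M * ‖C.br‖ * ‖C.X‖ * (‖l‖ * ‖C.X‖) with hκ
  have hκi : IntegrableOn κ (Ioc 0 1) := by
    apply Integrable.add
    · exact hui.norm.const_mul _
    · exact integrable_const _
  have hκ0 : ∀ t ∈ Ioc (0 : ℝ) 1, 0 ≤ κ t := fun t _ => by positivity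
  have hφκ : ∀ t ∈ Icc (0 : ℝ) 1, φ t ≤ ∫ s in (0 : ℝ)..t, φ s * κ s := by
    intro t ht
    have hint0 : IntervalIntegrable κ volume 0 t :=
      (intervalIntegrable_iff_integrableOn_Ioc_of_le ht.1).2
        (hκi.mono_set (Ioc_subset_Ioc_right ht.2))
    have hint : IntervalIntegrable (fun s => φ s * κ s) volume 0 t := by
      apply hint0.continuousOn_mul
      rw [uIcc_of_le ht.1]
      exact hφc.mono (Icc_subset_Icc_right ht.2)
    have hnn : 0 ≤ ∫ s in (0 : ℝ)..t, φ s * κ s := by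
      rw [intervalIntegral.integral_of_le ht.1]
      apply setIntegral_nonneg measurableSet_Ioc
      intro s hs
      exact mul_nonneg (norm_nonneg _) (hκ0 s ⟨hs.1, hs.2.trans ht.2⟩)
    apply ContinuousLinearMap.opNorm_le_bound _ hnn
    intro z
    have h1 := (hu3 t ht).2.2.2.1 z
    have h2 := (hv3 t ht).2.2.2.1 z
    have hbi : ∀ w : Ctl r, IntegrableOn (fun s => C.br (C.X ((w : ℝ → EE r) s)) z)
        (Ioc (0 : ℝ) 1) := by
      intro w
      exact ((C.br.flip z).comp C.X).integrable_comp (ctl_integrable w)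
    have hui2 := (apply_integrable _ _ hAu (hbi u)).mono_set (Ioc_subset_Ioc_right ht.2)
    have hvi2 := (apply_integrable _ _ hAv (hbi v)).mono_set (Ioc_subset_Ioc_right ht.2)
    have hui3 := (intervalIntegrable_iff_integrableOn_Ioc_of_le ht.1).2 hui2
    have hvi3 := (intervalIntegrable_iff_integrableOn_Ioc_of_le ht.1).2 hvi2
    have h3 : (C.Ad u t - C.Ad v t) z = ∫ s in (0 : ℝ)..t,
        (C.Ad u s (C.br (C.X ((u : ℝ → EE r) s)) z) -
          C.Ad v s (C.br (C.X ((v : ℝ → EE r) s)) z)) := by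
      rw [intervalIntegral.integral_sub hui3 hvi3, sub_apply, h1, h2]
      abel
    rw [h3, ← intervalIntegral.integral_mul_const]
    apply intervalIntegral.norm_integral_le_of_norm_le ht.1 _ (hint.mul_const _)
    have hdiff2 := (ae_restrict_iff' measurableSet_Ioc).1 hdiff
    filter_upwards [hdiff2] with s hs hst
    have hs1 := hs ⟨hst.1, hst.2.trans ht.2⟩
    have hsI : s ∈ Icc (0 : ℝ) 1 := ⟨hst.1.le, hst.2.trans ht.2⟩
    have h4 : C.Ad u s (C.br (C.X ((u : ℝ → EE r) s)) z) -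
          C.Ad v s (C.br (C.X ((v : ℝ → EE r) s)) z) =
        (C.Ad u s - C.Ad v s) (C.br (C.X ((u : ℝ → EE r) s)) z) +
          C.Ad v s (C.br (C.X ((u : ℝ → EE r) s - v s)) z) := by
      rw [sub_apply, map_sub C.X, map_sub C.br,
        sub_apply, map_sub (C.Ad v s)]
      abel
    rw [h4]
    have h5 : ∀ a : EE r, ‖C.br (C.X a) z‖ ≤ ‖C.br‖ * ‖C.X‖ * ‖a‖ * ‖z‖ := by
      intro a
      calc ‖C.br (C.X a) z‖ ≤ ‖C.br‖ * ‖C.X a‖ * ‖z‖ := ContinuousLinearMap.le_opNorm₂ _ _ _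
        _ ≤ ‖C.br‖ * (‖C.X‖ * ‖a‖) * ‖z‖ := by
            gcongr
            exact ContinuousLinearMap.le_opNorm _ _
        _ = _ := by ring
    calc ‖(C.Ad u s - C.Ad v s) (C.br (C.X ((u : ℝ → EE r) s)) z) +
          C.Ad v s (C.br (C.X ((u : ℝ → EE r) s - v s)) z)‖
        ≤ ‖(C.Ad u s - C.Ad v s) (C.br (C.X ((u : ℝ → EE r) s)) z)‖ +
          ‖C.Ad v s (C.br (C.X ((u : ℝ → EE r) s - v s)) z)‖ := norm_add_le _ _
      _ ≤ φ s * (‖C.br‖ * ‖C.X‖ * ‖(u : ℝ → EE r) s‖ * ‖z‖) +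
          M * (‖C.br‖ * ‖C.X‖ * (‖l‖ * (φ s * ‖C.X‖)) * ‖z‖) := by
          apply add_le_add
          · refine (ContinuousLinearMap.le_opNorm _ _).trans ?_
            exact mul_le_mul_of_nonneg_left (h5 _) (norm_nonneg _)
          · refine (ContinuousLinearMap.le_opNorm _ _).trans ?_
            apply mul_le_mul (hM s hsI) ((h5 _).trans _) (norm_nonneg _) hM0
            gcongr
      _ = φ s * κ s * ‖z‖ := by
          rw [hκ]
          ring
  have hzero := hG φ κ hφc hκi (fun t _ => norm_nonneg _) hκ0 hφκ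
  apply Lp.ext
  filter_upwards [hdiff, ae_restrict_mem measurableSet_Ioc] with t h1 ht
  rw [hzero t (Ioc_subset_Icc_self ht), zero_mul, mul_zero] at h1
  exact sub_eq_zero.1 (norm_eq_zero.1 (le_antisymm h1 (norm_nonneg _)))

end Pool.Agent.CutLoci.H65
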