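import Pool.Agent.Lib.MP_0e3b4a_gt.H65.Bezo

/-! # MULQ: a polynomial vanishing to second order along a path -/

set_option autoImplicit false

namespace Pool.Agent.CutLoci.H65

open MvPolynomial

/-- A partial derivative which is not zero has smaller degree. -/
theorem totalDegree_pderiv_lt (p : MvPolynomial (Fin 2) ℝ) (j : Fin 2) (h : pderiv j p ≠ 0) :
    (pderiv j p).totalDegree < p.totalDegree := by
  have key : ∀ m ∈ (pderiv j p).support, (m.sum fun _ e => e) < p.totalDegree := by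
    intro m hm
    rw [mem_support_iff, coeff_pderiv] at hm
    have h1 : m + Finsupp.single j 1 ∈ p.support := by
      rw [mem_support_iff]
      intro h0
      exact hm (by rw [h0, zero_mul])
    have h2 := le_totalDegree h1
    rw [Finsupp.sum_add_index' (fun _ => rfl) (fun _ _ _ => rfl), Finsupp.sum_single_index rfl]
      at h2
    omega
  have hpos : 0 < p.totalDegree := by
    obtain ⟨m, hm⟩ := support_nonempty.2 h
    exact lt_of_le_of_lt (Nat.zero_le _) (key m hm)
  unfold totalDegree at hpos ⊢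
  exact (Finset.sup_lt_iff hpos).2 key

/-- If both partial derivatives vanish the polynomial is constant. -/
theorem eq_C_of_pderiv (p : MvPolynomial (Fin 2) ℝ) (h : ∀ j, pderiv j p = 0) :
    p = C (coeff 0 p) := by
  ext m
  rw [coeff_C]
  split_ifs with h0
  · rw [h0]
  · obtain ⟨j, hj⟩ : ∃ j, m j ≠ 0 := by
      by_contra hc
      push Not at hc
      exact h0 (Finsupp.ext fun j => (hc j).symm)
    have h1 := congrArg (coeff (m - Finsupp.single j 1)) (h j)
    rw [coeff_pderiv, coeff_zero, Finsupp.sub_add_single_one_cancel hj] at h1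
    rcases mul_eq_zero.1 h1 with h2 | h2
    · exact h2
    · exfalso
      have : (0 : ℝ) ≤ ((m - Finsupp.single j 1 : Fin 2 →₀ ℕ) j : ℝ) := Nat.cast_nonneg _
      linarith

/-- The singular zeros of a prime polynomial are finitely many. -/
theorem finite_sing_prime (p : MvPolynomial (Fin 2) ℝ) (hp : Prime p) :
    {x : Fin 2 → ℝ | eval x p = 0 ∧ ∀ j, eval x (pderiv j p) = 0}.Finite := by
  obtain ⟨j, hj⟩ : ∃ j, pderiv j p ≠ 0 := by
    by_contra hc
    push Not at hc
    have h1 := eq_C_of_pderiv p hc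
    apply hp.not_isUnit
    rw [h1]
    apply IsUnit.map
    rw [isUnit_iff_ne_zero]
    intro h2
    rw [h2, map_zero] at h1
    exact hp.ne_zero h1
  refine (bezo p (pderiv j p) hp.ne_zero ?_).subset fun x hx => ⟨hx.1, hx.2 j⟩
  intro d hd1 hd2
  rcases (hp.irreducible.dvd_iff).1 hd1 with h | h
  · exact h
  · exfalso
    obtain ⟨r, hr⟩ := h.dvd.trans hd2
    have hr0 : r ≠ 0 := by
      rintro rfl
      exact hj (by rw [hr, mul_zero])
    have h3 := totalDegree_pderiv_lt p j hj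
    rw [hr, totalDegree_mul_of_isDomain hp.ne_zero hr0] at h3
    omega

/-- The square part which carries almost all singular zeros. -/
theorem exists_sq (F : MvPolynomial (Fin 2) ℝ) : F ≠ 0 → ∃ Q : MvPolynomial (Fin 2) ℝ,
    Q ^ 2 ∣ F ∧ {x : Fin 2 → ℝ | (eval x F = 0 ∧ ∀ j, eval x (pderiv j F) = 0) ∧
      eval x Q ≠ 0}.Finite := by
  refine UniqueFactorizationMonoid.induction_on_coprime (P := fun F => F ≠ 0 →
    ∃ Q : MvPolynomial (Fin 2) ℝ, Q ^ 2 ∣ F ∧
      {x : Fin 2 → ℝ | (eval x F = 0 ∧ ∀ j, eval x (pderiv j F) = 0) ∧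
      eval x Q ≠ 0}.Finite) F ?_ ?_ ?_ ?_
  · intro h; exact absurd rfl h
  · intro u hu _
    refine ⟨1, by simp, ?_⟩
    refine Set.finite_empty.subset ?_
    rintro x ⟨⟨hx, -⟩, -⟩
    have := hu.map (eval x)
    rw [hx] at this
    exact not_isUnit_zero this
  · intro p i hp _
    rcases Nat.lt_or_ge i 2 with hi | hi
    · refine ⟨1, by simp, ?_⟩
      refine (finite_sing_prime p hp).subset ?_
      rintro x ⟨⟨hx, hx'⟩, -⟩
      interval_cases i
      · simp at hx
      · rw [pow_one] at hx hx'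
        exact ⟨hx, hx'⟩
    · refine ⟨p, pow_dvd_pow p hi, ?_⟩
      refine Set.finite_empty.subset ?_
      rintro x ⟨⟨hx, -⟩, hx'⟩
      rw [map_pow] at hx
      exact hx' (pow_eq_zero_iff (by omega) |>.1 hx)
  · intro f g hfg hf hg hne
    obtain ⟨hf0, hg0⟩ := mul_ne_zero_iff.1 hne
    obtain ⟨Q, hQ, hQf⟩ := hf hf0
    obtain ⟨R, hR, hRf⟩ := hg hg0
    refine ⟨Q * R, by rw [mul_pow]; exact mul_dvd_mul hQ hR, ?_⟩
    refine ((hQf.union hRf).union (bezo f g hf0 (fun d h1 h2 => hfg h1 h2))).subset ?_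
    rintro x ⟨⟨hx, hx'⟩, hxQ⟩
    rw [map_mul] at hx hxQ
    obtain ⟨hxQ1, hxQ2⟩ := mul_ne_zero_iff.1 hxQ
    by_cases h1 : eval x f = 0
    · by_cases h2 : eval x g = 0
      · right; exact ⟨h1, h2⟩
      · left; left
        refine ⟨⟨h1, ?_⟩, hxQ1⟩
        intro j
        have h3 := hx' j
        rw [pderiv_mul, map_add, map_mul, map_mul, h1, zero_mul, add_zero] at h3
        exact (mul_eq_zero.1 h3).resolve_right h2
    · left; right
      have h2 : eval x g = 0 := (mul_eq_zero.1 hx).resolve_left h1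
      refine ⟨⟨h2, ?_⟩, hxQ2⟩
      intro j
      have h3 := hx' j
      rw [pderiv_mul, map_add, map_mul, map_mul, h2, mul_zero, zero_add] at h3
      exact (mul_eq_zero.1 h3).resolve_left h1

/-- MULQ -/
theorem mulq : MulqStatement := by
  intro x F hx hne hF hvan
  obtain ⟨Q, ⟨G, hG⟩, hQf⟩ := exists_sq F hF
  have hQ0 : Q ≠ 0 := by
    rintro rfl
    apply hF
    rw [hG]
    ring
  have hG0 : G ≠ 0 := by
    rintro rfl
    exact hF (by rw [hG, mul_zero])
  refine ⟨Q, hQ0, ?_, ?_⟩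
  · rw [hG, totalDegree_mul_of_isDomain (pow_ne_zero 2 hQ0) hG0, pow_two,
      totalDegree_mul_of_isDomain hQ0 hQ0]
    omega
  · have hpre : IsPreconnected (x '' Set.Icc 0 1) := isPreconnected_Icc.image x hx
    have hnt : (x '' Set.Icc 0 1).Nontrivial := by
      obtain ⟨s, hs, t, ht, hst⟩ := hne
      exact ⟨x s, ⟨s, hs, rfl⟩, x t, ⟨t, ht, rfl⟩, hst⟩
    have hacc := IsPreconnected.preperfect_of_nontrivial hnt hpre
    intro t ht
    by_contra hc
    obtain ⟨S, hS⟩ : ∃ S : Set (Fin 2 → ℝ), S = {y | (eval y F = 0 ∧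
      ∀ j, eval y (pderiv j F) = 0) ∧ eval y Q ≠ 0} := ⟨_, rfl⟩
    rw [← hS] at hQf
    have h1 := hacc (x t) ⟨t, ht, rfl⟩
    rw [accPt_iff_nhds] at h1
    have hopen : {y : Fin 2 → ℝ | eval y Q ≠ 0} ∩ (S \ {x t})ᶜ ∈ nhds (x t) := by
      apply Filter.inter_mem
      · exact (isOpen_ne_fun (MvPolynomial.continuous_eval Q) continuous_const).mem_nhds hc
      · exact ((hQf.subset Set.sdiff_subset).isClosed.isOpen_compl).mem_nhds (by simp)
    obtain ⟨y, ⟨⟨hy1, hy2⟩, ⟨s, hs, rfl⟩⟩, hy3⟩ := h1 _ hopen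
    apply hy2
    refine ⟨?_, hy3⟩
    rw [hS]
    exact ⟨hvan s hs, hy1⟩

end Pool.Agent.CutLoci.H65
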