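import Pool.Agent.Lib.MP_0e3b4a_gt.Iface3

/-! # BEZO: two polynomials in two variables without common factor -/

set_option autoImplicit false

namespace Pool.Agent.CutLoci.H65

open Polynomial nonZeroDivisors

/-- Gauss: relatively prime polynomials over a GCD domain have a nonzero constant combination. -/
theorem exists_comb {R : Type*} [CommRing R] [IsDomain R] [IsGCDMonoid R] (p q : R[X])
    (hp : p ≠ 0) (h : ∀ d, d ∣ p → d ∣ q → IsUnit d) :
    ∃ (a b : R[X]) (c : R), c ≠ 0 ∧ a * p + b * q = C c := by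
  classical
  let K := FractionRing R
  have hinj : Function.Injective (Polynomial.map (algebraMap R K)) :=
    Polynomial.map_injective _ (IsFractionRing.injective R K)
  have hP0 : p.map (algebraMap R K) ≠ 0 := by
    intro h0
    apply hp
    apply hinj
    rw [h0, Polynomial.map_zero]
  have hcop : IsCoprime (p.map (algebraMap R K)) (q.map (algebraMap R K)) := by
    rw [← EuclideanDomain.gcd_isUnit_iff]
    obtain ⟨g, hg⟩ : ∃ g, g = EuclideanDomain.gcd (p.map (algebraMap R K))
      (q.map (algebraMap R K)) := ⟨_, rfl⟩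
    rw [← hg]
    have hgp : g ∣ p.map (algebraMap R K) := by rw [hg]; exact EuclideanDomain.gcd_dvd_left _ _
    have hgq : g ∣ q.map (algebraMap R K) := by rw [hg]; exact EuclideanDomain.gcd_dvd_right _ _
    have hg0 : g ≠ 0 := by
      rintro rfl
      exact hP0 (zero_dvd_iff.1 hgp)
    let : NormalizedGCDMonoid R := Nonempty.some inferInstance
    apply isUnit_or_eq_zero_of_isUnit_integerNormalization_primPart (R := R) hg0
    obtain ⟨G, hG⟩ : ∃ G, G = IsLocalization.integerNormalization R⁰ g := ⟨_, rfl⟩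
    rw [← hG]
    have hprim : G.primPart.map (algebraMap R K) ∣ g := by
      obtain ⟨c, c0, hc⟩ := IsLocalization.integerNormalization_spec R⁰ g
      rw [← hG] at hc
      have h1 : G.primPart.map (algebraMap R K) ∣ G.map (algebraMap R K) :=
        Polynomial.map_dvd _ G.primPart_dvd
      rw [hc, Algebra.smul_def, Polynomial.algebraMap_apply] at h1
      have hu : IsUnit (C (algebraMap R K c)) := by
        rw [Polynomial.isUnit_C, isUnit_iff_ne_zero]
        intro h2
        have h3 : c = 0 := IsFractionRing.injective R K (by rw [h2, map_zero])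
        exact nonZeroDivisors.ne_zero c0 h3
      exact hu.dvd_mul_left.1 h1
    exact h _ (G.isPrimitive_primPart.dvd_of_fraction_map_dvd_fraction_map (hprim.trans hgp))
      (G.isPrimitive_primPart.dvd_of_fraction_map_dvd_fraction_map (hprim.trans hgq))
  obtain ⟨a, b, hab⟩ := hcop
  obtain ⟨c, c0, hc⟩ := IsLocalization.integerNormalization_spec R⁰ a
  obtain ⟨d, d0, hd⟩ := IsLocalization.integerNormalization_spec R⁰ b
  refine ⟨C d * IsLocalization.integerNormalization R⁰ a,
    C c * IsLocalization.integerNormalization R⁰ b, c * d,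
    mul_ne_zero (nonZeroDivisors.ne_zero c0) (nonZeroDivisors.ne_zero d0), ?_⟩
  apply hinj
  rw [Algebra.smul_def, Polynomial.algebraMap_apply] at hc hd
  simp only [Polynomial.map_add, Polynomial.map_mul, Polynomial.map_C, hc, hd, map_mul]
  linear_combination (C (algebraMap R K c) * C (algebraMap R K d)) * hab

/-- A nonzero polynomial in one variable has finitely many zeros. -/
theorem finite_zeros_one (c : MvPolynomial (Fin 1) ℝ) (hc : c ≠ 0) :
    {y : ℝ | MvPolynomial.eval (fun _ => y) c = 0}.Finite := by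
  obtain ⟨P, hP⟩ : ∃ P : ℝ[X], P = Polynomial.map (MvPolynomial.eval (Fin.elim0 : Fin 0 → ℝ))
    (MvPolynomial.finSuccEquiv ℝ 0 c) := ⟨_, rfl⟩
  have hinj : Function.Injective (MvPolynomial.eval (Fin.elim0 : Fin 0 → ℝ)) := by
    intro a b hab
    apply (MvPolynomial.isEmptyAlgEquiv ℝ (Fin 0)).injective
    have h0 : ((MvPolynomial.isEmptyAlgEquiv ℝ (Fin 0) :
        MvPolynomial (Fin 0) ℝ ≃ₐ[ℝ] ℝ) : MvPolynomial (Fin 0) ℝ →ₐ[ℝ] ℝ) =
        MvPolynomial.aeval (Fin.elim0 : Fin 0 → ℝ) := by
      ext i
      exact i.elim0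
    have h1 : ∀ f : MvPolynomial (Fin 0) ℝ, MvPolynomial.isEmptyAlgEquiv ℝ (Fin 0) f =
        MvPolynomial.eval (Fin.elim0 : Fin 0 → ℝ) f := by
      intro f
      have := congrArg (fun φ => φ f) h0
      simpa [MvPolynomial.coe_aeval_eq_eval] using this
    rw [h1, h1, hab]
  have hP0 : P ≠ 0 := by
    rw [hP]
    intro h0
    have h1 := Polynomial.map_injective _ hinj (h0.trans (Polynomial.map_zero _).symm)
    exact hc ((map_eq_zero_iff _ (MvPolynomial.finSuccEquiv ℝ 0).injective).1 h1)
  refine (P.roots.toFinset.finite_toSet).subset ?_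
  intro y hy
  simp only [Set.mem_ofPred_eq] at hy
  rw [Finset.mem_coe, Multiset.mem_toFinset, Polynomial.mem_roots hP0, Polynomial.IsRoot.def, hP,
    ← MvPolynomial.eval_eq_eval_mv_eval']
  have h2 : (Fin.cons y (Fin.elim0 : Fin 0 → ℝ) : Fin 1 → ℝ) = fun _ => y := by
    funext i
    fin_cases i
    rfl
  rw [h2, hy]

/-- The second coordinates of common zeros. -/
theorem finite_second (p q : MvPolynomial (Fin 2) ℝ) (hp : p ≠ 0)
    (h : ∀ d, d ∣ p → d ∣ q → IsUnit d) :
    ∃ B : Set ℝ, B.Finite ∧ ∀ x : Fin 2 → ℝ, MvPolynomial.eval x p = 0 →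
      MvPolynomial.eval x q = 0 → x 1 ∈ B := by
  let e := MvPolynomial.finSuccEquiv ℝ 1
  obtain ⟨a, b, c, hc, hab⟩ := exists_comb (e p) (e q)
    (fun h0 => hp ((map_eq_zero_iff _ e.injective).1 h0)) (fun d hd1 hd2 => by
      have h1 : e.symm d ∣ p := by
        have := map_dvd e.symm hd1
        rwa [AlgEquiv.symm_apply_apply] at this
      have h2 : e.symm d ∣ q := by
        have := map_dvd e.symm hd2
        rwa [AlgEquiv.symm_apply_apply] at this
      have h3 := (h _ h1 h2).map e
      rwa [AlgEquiv.apply_symm_apply] at h3)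
  refine ⟨_, finite_zeros_one c hc, ?_⟩
  intro x hxp hxq
  have hx : (Fin.cons (x 0) (fun _ => x 1) : Fin 2 → ℝ) = x := by
    funext i
    fin_cases i <;> rfl
  have ev : ∀ f : MvPolynomial (Fin 2) ℝ, MvPolynomial.eval x f =
      Polynomial.eval (x 0) (Polynomial.map (MvPolynomial.eval (fun _ => x 1)) (e f)) := by
    intro f
    rw [← MvPolynomial.eval_eq_eval_mv_eval', hx]
  rw [ev] at hxp hxq
  have h4 := congrArg (fun f => Polynomial.eval (x 0)
    (Polynomial.map (MvPolynomial.eval (fun _ => x 1)) f)) hab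
  simp only [Polynomial.map_add, Polynomial.map_mul, Polynomial.eval_add, Polynomial.eval_mul,
    hxp, hxq, mul_zero, add_zero, Polynomial.map_C, Polynomial.eval_C] at h4
  exact h4.symm

/-- BEZO -/
theorem bezo : BezoStatement := by
  intro p q hp h
  obtain ⟨B, hB, hB'⟩ := finite_second p q hp h
  let σ : Fin 2 ≃ Fin 2 := Equiv.swap 0 1
  let e := MvPolynomial.renameEquiv ℝ σ
  obtain ⟨A, hA, hA'⟩ := finite_second (e p) (e q)
    (fun h0 => hp ((map_eq_zero_iff _ e.injective).1 h0)) (fun d hd1 hd2 => by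
      have h1 : e.symm d ∣ p := by
        have := map_dvd e.symm hd1
        rwa [AlgEquiv.symm_apply_apply] at this
      have h2 : e.symm d ∣ q := by
        have := map_dvd e.symm hd2
        rwa [AlgEquiv.symm_apply_apply] at this
      have h3 := (h _ h1 h2).map e
      rwa [AlgEquiv.apply_symm_apply] at h3)
  refine (Set.Finite.pi' (t := fun i : Fin 2 => if i = 0 then A else B) ?_).subset ?_
  · intro i
    fin_cases i
    · simpa using hA
    · simpa using hB
  · rintro x ⟨hx1, hx2⟩
    have hσ : (x ∘ σ) ∘ σ = x := by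
      funext i
      simp [σ]
    have hx1' : MvPolynomial.eval (x ∘ σ) (e p) = 0 := by
      simp only [e, MvPolynomial.renameEquiv_apply, MvPolynomial.eval_rename, hσ, hx1]
    have hx2' : MvPolynomial.eval (x ∘ σ) (e q) = 0 := by
      simp only [e, MvPolynomial.renameEquiv_apply, MvPolynomial.eval_rename, hσ, hx2]
    intro i
    fin_cases i
    · simpa [σ] using hA' _ hx1' hx2'
    · simpa using hB' _ hx1 hx2

end Pool.Agent.CutLoci.H65
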